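import Pool.Agent.Q197.DT.A

/-! # The digits of the translates of `√2` by rationals with short periods

For all but `40 * 9 ^ P` of the `10 ^ P` rationals `r = w / (10 ^ P - 1)` each of the ten digits
stands in the decimal expansion of `√2 + r` with upper density at least `1 / (2 P)`. More generally,
for every finite set `S` of real numbers, every base `b` and all `k ≤ P`: for all but
`4 |S| b ^ k (b ^ k - 1) ^ (P / k) b ^ (P % k)` of the `w < b ^ P` every word of `k` digits stands with
upper density at least `1 / (2 P)` in the expansions in base `b` of all the numbers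
`x + w / (b ^ P - 1)`, `x ∈ S`. -/

set_option autoImplicit false

open Finset Filter

namespace Pool.Agent.Results.MP_175f55_nt.ExceptionalTranslates

/-- The value of the word of `k` digits of `y` in base `b` which follows the `n`-th digit after the
point. For `k = 1` this is the `(n + 1)`-st digit after the point. -/
noncomputable def word (b k : ℕ) (y : ℝ) (n : ℕ) : ℤ := ⌊(b : ℝ) ^ (n + k) * y⌋ % (b : ℤ) ^ k

/-- The number of the `m < n` such that the word of `k` digits after the `m`-th digit is `U`. -/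
noncomputable def count (b k : ℕ) (U : ℤ) (y : ℝ) (n : ℕ) : ℕ :=
  ((range n).filter (fun m => word b k y m = U)).card

/-- The word `U` of `k` digits stands with upper density at least `c` in the expansion of `y`:
for infinitely many `n` it stands at least `c n` times at the first `n` places. -/
def Dense (b k : ℕ) (U : ℤ) (c : ℝ) (y : ℝ) : Prop := ∃ᶠ n : ℕ in atTop, c * n ≤ count b k U y n

open Classical in
theorem result :
    (∀ P : ℕ, 1 ≤ P → (((range (10 ^ P)).filter (fun w : ℕ => ¬ ∀ d : ℕ, d < 10 →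
      Dense 10 1 d (1 / (2 * P)) (√2 + w / ((10 : ℝ) ^ P - 1)))).card : ℝ) ≤ 40 * 9 ^ P) ∧
    (∀ (S : Finset ℝ) (b k P : ℕ), 2 ≤ b → 1 ≤ k → k ≤ P →
      (((range (b ^ P)).filter (fun w : ℕ => ¬ ∀ x ∈ S, ∀ U : ℕ, U < b ^ k →
        Dense b k U (1 / (2 * P)) (x + w / ((b : ℝ) ^ P - 1)))).card : ℝ) ≤
      S.card * b ^ k * (4 * ((b : ℝ) ^ k - 1) ^ (P / k) * b ^ (P % k))) := by
  have main : ∀ (S : Finset ℝ) (b k P : ℕ), 2 ≤ b → 1 ≤ k → k ≤ P →
      (((range (b ^ P)).filter (fun w : ℕ => ¬ ∀ x ∈ S, ∀ U : ℕ, U < b ^ k →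
        Dense b k U (1 / (2 * P)) (x + w / ((b : ℝ) ^ P - 1)))).card : ℝ) ≤
      S.card * b ^ k * (4 * ((b : ℝ) ^ k - 1) ^ (P / k) * b ^ (P % k)) := by
    intro S b k P hb hk hkP
    have hP : (1 : ℝ) ≤ P := by exact_mod_cast hk.trans hkP
    have hb1 : (1 : ℝ) ≤ b := by exact_mod_cast (by omega : 1 ≤ b)
    have hone : 1 ≤ b ^ k := Nat.one_le_pow _ _ (by omega)
    have hsub : (range (b ^ P)).filter (fun w : ℕ => ¬ ∀ x ∈ S, ∀ U : ℕ, U < b ^ k →
        Dense b k U (1 / (2 * P)) (x + w / ((b : ℝ) ^ P - 1))) ⊆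
        S.biUnion (fun x => (range (b ^ k)).biUnion (fun U => (range (b ^ P)).filter (fun w =>
          ∀ᶠ n : ℕ in atTop, (Q197.DT.cnt b k U (Q197.DT.tr b P x w) n : ℝ) < 1 / (2 * P) * n))) := by
      intro w hw
      rw [mem_filter] at hw
      obtain ⟨hw1, hw2⟩ := hw
      push Not at hw2
      obtain ⟨x, hx, U, hU, h⟩ := hw2
      rw [mem_biUnion]
      refine ⟨x, hx, ?_⟩
      rw [mem_biUnion]
      refine ⟨U, mem_range.2 hU, ?_⟩
      rw [mem_filter]
      refine ⟨hw1, ?_⟩
      unfold Dense at h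
      rw [Filter.not_frequently] at h
      filter_upwards [h] with n hn
      exact lt_of_not_ge hn
    have h1 : ∀ x : ℝ, ∀ U ∈ range (b ^ k), (((range (b ^ P)).filter (fun w =>
          ∀ᶠ n : ℕ in atTop, (Q197.DT.cnt b k U (Q197.DT.tr b P x w) n : ℝ) < 1 / (2 * P) * n)).card : ℝ) ≤
          4 * ((b : ℝ) ^ k - 1) ^ (P / k) * b ^ (P % k) := by
      intro x U hU
      have h2 := Q197.DT.few_translates (b := b) (k := k) (P := P) hb hk hkP (U : ℤ) x
        (d := 1 / (2 * P)) (by
          have : 1 / (2 * (P : ℝ)) * P = 1 / 2 := by field_simp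
          rw [this]
          norm_num)
      have h3 := Q197.DT.avoid_le (b := b) (k := k) hb hk (U := (U : ℤ)) (by positivity)
        (by exact_mod_cast mem_range.1 hU) (P / k) (P % k)
      rw [Nat.div_add_mod] at h3
      have h4 : ((Q197.DT.avoid b k P U).card : ℝ) ≤ ((b : ℝ) ^ k - 1) ^ (P / k) * b ^ (P % k) := by
        have h5 : ((Q197.DT.avoid b k P U).card : ℝ) ≤ (((b ^ k - 1) ^ (P / k) * b ^ (P % k) : ℕ) : ℝ) := by
          exact_mod_cast h3
        rw [Nat.cast_mul, Nat.cast_pow, Nat.cast_pow, Nat.cast_sub hone] at h5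
        push_cast at h5
        exact h5
      have h6 : 2 / (1 - 1 / (2 * (P : ℝ)) * P) = 4 := by
        have : 1 / (2 * (P : ℝ)) * P = 1 / 2 := by field_simp
        rw [this]
        norm_num
      rw [h6] at h2
      calc _ ≤ 4 * ((Q197.DT.avoid b k P U).card : ℝ) := h2
        _ ≤ 4 * (((b : ℝ) ^ k - 1) ^ (P / k) * b ^ (P % k)) := by linarith
        _ = _ := by ring
    have h5 := (card_le_card hsub).trans card_biUnion_le
    calc (((range (b ^ P)).filter (fun w : ℕ => ¬ ∀ x ∈ S, ∀ U : ℕ, U < b ^ k →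
        Dense b k U (1 / (2 * P)) (x + w / ((b : ℝ) ^ P - 1)))).card : ℝ)
        ≤ ∑ x ∈ S, (((range (b ^ k)).biUnion (fun U => (range (b ^ P)).filter (fun w =>
          ∀ᶠ n : ℕ in atTop, (Q197.DT.cnt b k U (Q197.DT.tr b P x w) n : ℝ) < 1 / (2 * P) * n))).card : ℝ) := by
          exact_mod_cast h5
      _ ≤ ∑ x ∈ S, ∑ U ∈ range (b ^ k), (((range (b ^ P)).filter (fun w =>
          ∀ᶠ n : ℕ in atTop, (Q197.DT.cnt b k U (Q197.DT.tr b P x w) n : ℝ) < 1 / (2 * P) * n)).card : ℝ) := by
          refine sum_le_sum fun x _ => ?_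
          exact_mod_cast card_biUnion_le
      _ ≤ ∑ x ∈ S, ∑ U ∈ range (b ^ k), 4 * ((b : ℝ) ^ k - 1) ^ (P / k) * b ^ (P % k) :=
          sum_le_sum fun x _ => sum_le_sum fun U hU => h1 x U hU
      _ = S.card * b ^ k * (4 * ((b : ℝ) ^ k - 1) ^ (P / k) * b ^ (P % k)) := by
          rw [sum_const, sum_const, card_range, nsmul_eq_mul, nsmul_eq_mul]
          push_cast
          ring
  refine ⟨fun P hP => ?_, main⟩
  have h := main {√2} 10 1 P (by norm_num) le_rfl hP
  simp only [mem_singleton, forall_eq, pow_one, Nat.div_one, Nat.mod_one, pow_zero, mul_one,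
    card_singleton, Nat.cast_one, one_mul] at h
  push_cast at h
  refine h.trans (le_of_eq ?_)
  norm_num
  ring

end Pool.Agent.Results.MP_175f55_nt.ExceptionalTranslates
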