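import Pool.Agent.Q270.VS.Ge

/-!
# The digits of `√m` and of `x m ^ θ` for almost all `m`, up to `(log m) ^ (1 + δ)` places

Almost square root discrepancy in all windows and all small bases, with an exceptional set of
`N exp (-(log N) ^ κ)` integers up to `N`; so also for almost all primes `m`.
-/

set_option autoImplicit false

namespace Pool.Agent.Results.MP_175f55_nt.RootsFarOut

open Finset Filter Topology

/-- the number of the places `j` with `s ≤ j < s + n` for which the fractional part of `b ^ j y`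
lies in `[u, v)`; for `u = w / b ^ k`, `v = (w + 1) / b ^ k` these are the occurrences of the word
of the `k` base `b` digits of `w` in the expansion of `y`, starting directly after the place `j` -/
noncomputable def visits (b : ℕ) (y : ℝ) (s n : ℕ) (u v : ℝ) : ℕ :=
  ((Ico s (s + n)).filter (fun j => u ≤ Int.fract ((b : ℝ) ^ j * y) ∧
    Int.fract ((b : ℝ) ^ j * y) < v)).card

theorem result : ∃ δ : ℝ, 0 < δ ∧ ∀ θ : ℝ, 0 < θ → (∀ n : ℕ, θ ≠ n) → ∀ ε : ℝ, 0 < ε →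
    ∃ κ : ℝ, 0 < κ ∧ ∀ᶠ N : ℕ in atTop, ∀ S : Finset ℝ,
      (S.card : ℝ) ≤ Real.exp ((Real.log N) ^ κ) → (∀ x ∈ S, 1 ≤ |x| ∧ |x| ≤ N) →
      ∃ B : Finset ℕ, (B.card : ℝ) ≤ N * Real.exp (-(Real.log N) ^ κ) ∧
        ∀ m, 1 ≤ m → m ≤ N → m ∉ B → ∀ x ∈ S, ∀ b : ℕ, 2 ≤ b →
          (b : ℝ) ≤ Real.exp ((Real.log N) ^ κ) → ∀ s n : ℕ,
          (b : ℝ) ^ (s + n) ≤ Real.exp ((Real.log N) ^ (1 + δ)) →
          ∀ u v : ℝ, 0 ≤ u → u ≤ v → v ≤ 1 →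
            |(visits b (x * (m : ℝ) ^ θ) s n u v : ℝ) - n * (v - u)| ≤
              √(n : ℝ) * (Real.log N) ^ ε := by
  classical
  obtain ⟨δ₀, hδ₀, hgeo⟩ := Pool.Agent.Q270.VS.geoN
  refine ⟨δ₀ / 2, by positivity, ?_⟩
  intro θ hθ0 hθ ε hε
  obtain ⟨ε₁, hε₁⟩ : ∃ ε₁ : ℝ, ε₁ = min ε θ := ⟨_, rfl⟩
  have hε₁0 : 0 < ε₁ := by rw [hε₁]; exact lt_min hε hθ0
  have hε₁1 : ε₁ ≤ ε := by rw [hε₁]; exact min_le_left _ _
  have hε₁2 : ε₁ ≤ θ := by rw [hε₁]; exact min_le_right _ _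
  obtain ⟨κ, hκ, hgeo⟩ := hgeo θ hθ ε₁ 1 hε₁0 one_pos
  refine ⟨κ / 2, by positivity, ?_⟩
  have hlog : Tendsto (fun X : ℕ => Real.log (X : ℝ)) atTop atTop :=
    Real.tendsto_log_atTop.comp tendsto_natCast_atTop_atTop
  have e1 : ∀ᶠ N : ℕ in atTop, (2 : ℝ) ≤ (Real.log N) ^ (κ / 2) :=
    hlog.eventually ((tendsto_rpow_atTop (by positivity)).eventually_ge_atTop _)
  have e2 : ∀ᶠ N : ℕ in atTop, 1 + θ ≤ (Real.log N) ^ (δ₀ / 2) :=
    hlog.eventually ((tendsto_rpow_atTop (by positivity)).eventually_ge_atTop _)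
  filter_upwards [hgeo, e1, e2, eventually_ge_atTop 2, hlog.eventually_ge_atTop 1]
    with N hN h1 h1' h2 h3
  intro S hS hSx
  have hN1 : (1 : ℝ) ≤ N := by exact_mod_cast (by omega : 1 ≤ N)
  have hNp : (0 : ℝ) < N := by linarith
  obtain ⟨ℓ, hℓ⟩ : ∃ ℓ : ℝ, ℓ = Real.log N := ⟨_, rfl⟩
  rw [← hℓ] at h1 h1' h3 hS hN ⊢
  have hℓ0 : 0 < ℓ := by linarith
  have hNexp : (N : ℝ) = Real.exp ℓ := by rw [hℓ, Real.exp_log hNp]
  have hκ2 : ℓ ^ κ = ℓ ^ (κ / 2) * ℓ ^ (κ / 2) := by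
    rw [← Real.rpow_add hℓ0]
    norm_num
  obtain ⟨A, hA⟩ : ∃ A : ℕ, A = ⌊Real.exp (ℓ ^ (κ / 2))⌋₊ := ⟨_, rfl⟩
  have hA1 : (A : ℝ) ≤ Real.exp (ℓ ^ (κ / 2)) := by
    rw [hA]
    exact Nat.floor_le (Real.exp_pos _).le
  obtain ⟨B, hBc, hB⟩ := hN ((S ×ˢ Icc 2 A).image (fun p => (p.1, (p.2 : ℝ)))) (by
    calc ((((S ×ˢ Icc 2 A).image (fun p => (p.1, (p.2 : ℝ)))).card : ℕ) : ℝ) ≤
        ((S ×ˢ Icc 2 A).card : ℝ) := by exact_mod_cast card_image_le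
      _ = (S.card : ℝ) * ((Icc 2 A).card : ℝ) := by rw [card_product]; push_cast; ring
      _ ≤ Real.exp (ℓ ^ (κ / 2)) * Real.exp (ℓ ^ (κ / 2)) := by
          refine mul_le_mul hS ?_ (Nat.cast_nonneg _) (Real.exp_pos _).le
          refine le_trans ?_ hA1
          rw [Nat.card_Icc]
          exact_mod_cast (by omega : A + 1 - 2 ≤ A)
      _ = Real.exp (ℓ ^ (κ / 2) + ℓ ^ (κ / 2)) := by rw [Real.exp_add]
      _ ≤ Real.exp (ℓ ^ κ) := by
          apply Real.exp_le_exp.2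
          rw [hκ2]
          nlinarith) (by
    intro p hp
    obtain ⟨z, hz, rfl⟩ := mem_image.1 hp
    rw [mem_product, mem_Icc] at hz
    obtain ⟨h4, h5⟩ := hSx z.1 hz.1
    refine ⟨h4, h5, ?_⟩
    have : (2 : ℝ) ≤ z.2 := by exact_mod_cast hz.2.1
    simp only
    linarith)
  refine ⟨B, hBc.trans ?_, ?_⟩
  · refine mul_le_mul_of_nonneg_left (Real.exp_le_exp.2 ?_) hNp.le
    rw [hκ2]
    nlinarith
  intro m hm1 hm2 hmB x hx b hb hbA s n hn u v hu huv hv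
  have hbA' : b ≤ A := by
    rw [hA]
    exact Nat.le_floor hbA
  have hb1 : (1 : ℝ) ≤ b := by exact_mod_cast (by omega : 1 ≤ b)
  have h6 := hB m hm1 hm2 hmB (x, (b : ℝ)) (mem_image.2 ⟨(x, b), by
    rw [mem_product, mem_Icc]
    exact ⟨hx, hb, hbA'⟩, rfl⟩) s n (by
      simp only
      calc (N : ℝ) ^ ε₁ ≤ (N : ℝ) ^ θ := Real.rpow_le_rpow_of_exponent_le hN1 hε₁2
        _ = 1 * (N : ℝ) ^ θ := (one_mul _).symm
        _ ≤ (b : ℝ) ^ s * (N : ℝ) ^ θ := by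
            gcongr
            exact one_le_pow₀ hb1) (by
      simp only
      calc (b : ℝ) ^ (s + n) * (N : ℝ) ^ θ ≤ Real.exp (ℓ ^ (1 + δ₀ / 2)) * (N : ℝ) ^ θ := by
            gcongr
        _ = Real.exp (ℓ ^ (1 + δ₀ / 2) + ℓ * θ) := by
            rw [hNexp, ← Real.exp_mul, ← Real.exp_add]
        _ ≤ Real.exp (ℓ ^ (1 + δ₀)) := by
            apply Real.exp_le_exp.2
            have h8 : ℓ ≤ ℓ ^ (1 + δ₀ / 2) := by
              calc ℓ = ℓ ^ (1 : ℝ) := (Real.rpow_one ℓ).symm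
                _ ≤ _ := Real.rpow_le_rpow_of_exponent_le (by linarith) (by linarith)
            have h11 : ℓ ^ (1 + δ₀) = ℓ ^ (δ₀ / 2) * ℓ ^ (1 + δ₀ / 2) := by
              rw [← Real.rpow_add hℓ0]
              congr 1
              ring
            rw [h11]
            have h12 : 0 ≤ ℓ ^ (1 + δ₀ / 2) := by positivity
            nlinarith) u v hu huv hv
  have h7 : ∀ j : ℕ, (b : ℝ) ^ j * (x * (m : ℝ) ^ θ) = x * (b : ℝ) ^ j * (m : ℝ) ^ θ := by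
    intro j
    ring
  have h8 : |(visits b (x * (m : ℝ) ^ θ) s n u v : ℝ) - n * (v - u)| ≤
      √(n : ℝ) * ℓ ^ ε₁ := by
    refine le_trans (le_of_eq ?_) h6
    unfold visits Pool.Agent.Q270.VS.cn
    simp only [h7]
  refine h8.trans (mul_le_mul_of_nonneg_left ?_ (Real.sqrt_nonneg _))
  exact Real.rpow_le_rpow_of_exponent_le h3 hε₁1

end Pool.Agent.Results.MP_175f55_nt.RootsFarOut
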