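import Pool.Agent.Q83.NQ.E

/-!
# MP_175f55_nt: sparse digit noise under the square root

`noise d T` is the law of a sequence of independent base `b` digits, uniform at the places in `T`
and equal to the prescribed digits `d` at the other places.  `Recurs b c T` says that `T` has an
element in `[x, x + c log_b x]` for all large `x`; such `T` may have density zero.
For example `b = 10`, `d = 0`, `x = 2`: the decimal digits of `2` are changed only at the places
of `T`, and the square root of the new number is almost surely normal in every base.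
-/

set_option autoImplicit false

open MeasureTheory Filter Topology Finset
open Q83.NP Q83.NQ

namespace Pool.Agent.Results.MP_175f55_nt.SparseNoiseUnderTheRoot

open Classical in
theorem result (b : ℕ) [NeZero b] (hb : 2 ≤ b) :
    (∀ c : ℝ, 0 < c → ∃ T : Set ℕ, Recurs b c T ∧
      Tendsto (fun N : ℕ => (#{t ∈ range N | t ∈ T} : ℝ) / N) atTop (𝓝 0)) ∧
    ∀ (c : ℝ) (T : Set ℕ), c < 1 / 2 → Recurs b c T → ∀ d : ℕ → Fin b,
      (∀ x : ℝ, ∀ᵐ ω ∂(noise d T), (∀ i ∉ T, ω i = d i) ∧ (0 < x + Real.ofDigits ω →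
        AbsNormal (Real.sqrt (x + Real.ofDigits ω)) ∧ Cancels (Real.sqrt (x + Real.ofDigits ω)))) ∧
      (∀ F : ℝ → ℝ, Measurable F → ∀ x r : ℝ, r ≠ 0 → ∀ᵐ ω ∂(noise d T),
        Curved F (x + r * Real.ofDigits ω) →
          AbsNormal (F (x + r * Real.ofDigits ω)) ∧ Cancels (F (x + r * Real.ofDigits ω))) ∧
      (∀ M : ℕ, #(words d T M) = b ^ #{i ∈ range M | i ∈ T}) ∧
      ∀ x : ℝ, 1 ≤ x → ∀ (k : ℕ) (ε : ℝ), 0 < ε → ∃ N₀ : ℕ, ∀ M : ℕ,
        (#{w ∈ words d T M | ¬ ∀ N, N₀ ≤ N → N ≤ M → ∀ v : Fin k → Fin b,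
          |(#{j ∈ range N | ∀ i : Fin k,
            ⌊Real.sqrt (x + Q83.NQ.val w) * (b : ℝ) ^ (j + 1 + (i : ℕ))⌋ % (b : ℤ) = (((v i : ℕ)) : ℤ)} : ℝ)
              - N / (b : ℝ) ^ k| ≤ ε * N} : ℝ) ≤ ε * (b : ℝ) ^ #{i ∈ range M | i ∈ T} := by
  refine ⟨fun c hc => exists_sparse b hb c hc, fun c T hc hT d => ⟨?_, ?_, ?_, ?_⟩⟩
  · intro x
    filter_upwards [noise_off hb d T, cancels_affine hb d T c hc hT x 1 one_ne_zero Real.sqrt
      Real.continuous_sqrt.measurable] with ω h1 h2
    refine ⟨h1, fun h3 => ?_⟩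
    rw [one_mul] at h2
    have h4 := h2 (curved_sqrt h3)
    exact ⟨h4.absNormal, h4⟩
  · intro F hF x r hr
    filter_upwards [cancels_affine hb d T c hc hT x r hr F hF] with ω h1 h2
    exact ⟨(h1 h2).absNormal, h1 h2⟩
  · intro M
    have e1 : words d T M = Fintype.piFinset fun i : Fin M =>
        if (i : ℕ) ∈ T then (univ : Finset (Fin b)) else {d i} := by
      ext w
      rw [Fintype.mem_piFinset]
      unfold words
      simp only [Finset.mem_filter, Finset.mem_univ, true_and]
      refine forall_congr' fun i => ?_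
      by_cases hi : (i : ℕ) ∈ T
      · simp [hi]
      · simp [hi]
    rw [e1, Fintype.card_piFinset]
    have e2 : ∀ i : Fin M, #(if (i : ℕ) ∈ T then (univ : Finset (Fin b)) else {d i}) =
        if (i : ℕ) ∈ T then b else 1 := by
      intro i
      by_cases hi : (i : ℕ) ∈ T
      · rw [if_pos hi, if_pos hi, card_univ, Fintype.card_fin]
      · rw [if_neg hi, if_neg hi, card_singleton]
    rw [Finset.prod_congr rfl fun i _ => e2 i, Fin.prod_univ_eq_prod_range (fun i => if i ∈ T then b else 1) M,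
      Finset.prod_ite, Finset.prod_const, Finset.prod_const_one, mul_one]
  · intro x hx k ε hε
    exact finite_sqrt hb d T c hc hT x hx k ε hε

end Pool.Agent.Results.MP_175f55_nt.SparseNoiseUnderTheRoot
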