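import Pool.Agent.Q270.SP.One

/-!
# The digits of the square roots of the prime numbers

Let `θ > 0` be a real number which is not an integer, for instance `θ = 1/2`. The numbers
`x_p = ω p ^ θ + P(p)`, for the primes `p ≤ N` (of a residue class `a` modulo `q`), for example the
numbers `√p`, are considered. For every `A` their digits up to the place `A log N` behave as those of
random numbers, uniformly in the real number `ω`, `1 ≤ |ω| ≤ N ^ W`, and in the real polynomial `P` of
degree at most `d`: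

* all `x_p` but a proportion `N ^ (-c)` have, in every base `b ≤ B`, all words of at most `w` digits
  with the right frequency in every window of the first `A log N` digits, up to `ε log N`;
* the joint distribution of `k` digits, words or intervals, at arbitrary places up to `A log N` and in
  arbitrary bases `b_i ≤ B`, is the one of a random real number up to an error `N ^ (-c)`;
* the number of ones (or any sum over the words) in a window of the digits obeys the central limit
  theorem.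

Proof. The identity of Vaughan reduces the exponential sums over the primes with the phase
`f p ^ θ + P(p)` to sums over all integers of an interval with phases of the same kind, where `f` may
be any power of `N`. For these the test of van der Corput of a high order is used, after a
decomposition of the interval according to which of the derivatives is large.
-/

set_option autoImplicit false

namespace Pool.Agent.Results.MP_175f55_nt.SquareRootsOfPrimes

open Filter Topology MeasureTheory ProbabilityTheory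

/-- the primes `p ≤ N` which are congruent to `a` modulo `q` -/
def Primes (a q N : ℕ) : Set ℕ := {p | p.Prime ∧ p ≡ a [MOD q] ∧ p ≤ N}

/-- the number `ω p ^ θ + P(p)` (for `θ = 1/2`, `ω = 1` and `P = 0` this is `√p`) -/
noncomputable def num (θ ω : ℝ) (P : Polynomial ℝ) (p : ℕ) : ℝ := ω * (p : ℝ) ^ θ + P.eval (p : ℝ)

/-- the word of the `k` digits in base `b` of `y` which follow the first `n` digits after the point,
read as an integer between `0` and `b ^ k - 1` -/
noncomputable def word (b k n : ℕ) (y : ℝ) : ℕ :=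
  ⌊(b : ℝ) ^ k * Int.fract ((b : ℝ) ^ n * y)⌋₊

/-- in every base `2 ≤ b ≤ B` the number of occurrences of every word of `k ≤ w` digits at the `L`
places `s, …, s + L - 1` of `y`, for every window with `s + L ≤ T`, differs from `L / b ^ k` by at
most `E` -/
def NormalUpTo (B w : ℕ) (T E : ℝ) (y : ℝ) : Prop :=
  ∀ b k j s L : ℕ, 2 ≤ b → b ≤ B → 1 ≤ k → k ≤ w → j < b ^ k → (s : ℝ) + L ≤ T →
    |(({i : ℕ | i < L ∧ word b k (s + i) y = j}.ncard : ℕ) : ℝ) - L / (b : ℝ) ^ k| ≤ E

/-- the mean of `F` over the words of `w` digits -/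
noncomputable def mean (b w : ℕ) (F : ℕ → ℝ) : ℝ := (∑ c ∈ Finset.range (b ^ w), F c) / (b : ℝ) ^ w

/-- the covariance of the values of `F` at two words of `w` random digits at the distance `h` -/
noncomputable def cov (b w : ℕ) (F : ℕ → ℝ) (h : ℕ) : ℝ :=
  (∑ c ∈ Finset.range (b ^ (w + h)), (F (c / b ^ h) - mean b w F) * (F (c % b ^ w) - mean b w F)) /
    (b : ℝ) ^ (w + h)

/-- the asymptotic variance of the sums of `F` over the words of `w` digits -/
noncomputable def variance (b w : ℕ) (F : ℕ → ℝ) : ℝ :=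
  cov b w F 0 + 2 * ∑ h ∈ Finset.Ico 1 w, cov b w F h

/-- the number of ones among the `L` binary digits of `y` at the places `s + 1, …, s + L` -/
noncomputable def ones (s L : ℕ) (y : ℝ) : ℕ := {i : ℕ | i < L ∧ word 2 1 (s + i) y = 1}.ncard

lemma Primes_eq (a q N : ℕ) :
    Primes a q N = ((Pool.Agent.Q270.SP.PrA a q N : Finset ℕ) : Set ℕ) := by
  ext p
  simp only [Primes, Pool.Agent.Q270.SP.PrA, Set.mem_ofPred_eq, Finset.coe_filter, Finset.mem_Ioc]
  constructor
  · rintro ⟨h1, h2, h3⟩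
    exact ⟨⟨h1.pos, h3⟩, h1, h2⟩
  · rintro ⟨⟨_, h3⟩, h1, h2⟩
    exact ⟨h1, h2, h3⟩

open Classical in
lemma ncard_eq (a q N : ℕ) (p : ℕ → Prop) : ({m ∈ Primes a q N | p m}.ncard : ℕ) =
    ((Pool.Agent.Q270.SP.PrA a q N).filter p).card := by
  have h : {m ∈ Primes a q N | p m} =
      (((Pool.Agent.Q270.SP.PrA a q N).filter p : Finset ℕ) : Set ℕ) := by
    rw [Finset.coe_filter, Primes_eq]
    rfl
  rw [h, Set.ncard_coe_finset]

lemma cnt_eq (b k s L j : ℕ) (y : ℝ) : {i : ℕ | i < L ∧ word b k (s + i) y = j}.ncard =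
    ((Finset.range L).filter (fun i => Pool.Agent.Y933.KD.wd b k (s + i) y = j)).card := by
  have h2 : {i : ℕ | i < L ∧ word b k (s + i) y = j} =
      (((Finset.range L).filter
        (fun i => Pool.Agent.Y933.KD.wd b k (s + i) y = j) : Finset ℕ) : Set ℕ) := by
    ext i
    simp only [Set.mem_ofPred_eq, Finset.coe_filter, Finset.mem_range]
    rfl
  rw [h2, Set.ncard_coe_finset]

lemma var_ones : variance 2 1 (fun c => (c : ℝ)) = 1 / 4 := by
  simp only [variance, cov, mean]
  norm_num [Finset.sum_range_succ]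

lemma sum_ones (s L : ℕ) (y : ℝ) :
    ∑ i ∈ Finset.range L, ((word 2 1 (s + i) y : ℕ) : ℝ) = ones s L y := by
  unfold ones
  rw [cnt_eq, Finset.card_filter]
  push_cast
  refine Finset.sum_congr rfl fun i _ => ?_
  have h1 : word 2 1 (s + i) y < 2 := by
    have h := Pool.Agent.Y933.KD.wd_lt (b := 2) (by norm_num) 1 (s + i) y
    rw [pow_one] at h
    exact h
  have h2 : Pool.Agent.Y933.KD.wd 2 1 (s + i) y = word 2 1 (s + i) y := rfl
  rw [h2]
  interval_cases h : word 2 1 (s + i) y <;> simp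

open Classical in
/-- Let `θ > 0` be a real number which is not an integer (for instance `1/2`), let `a` and `q` be
coprime, and let `d`, `W` and `A` be given. `N` is large, `ω` is a real number with
`1 ≤ |ω| ≤ N ^ W` and `P` a real polynomial of degree at most `d`; the bounds are uniform in `ω` and
`P`. `x_p = ω p ^ θ + P(p)`.

(1) For all `B`, `w` and `ε > 0` there is `c > 0` such that, for large `N`, all but a proportion
`N ^ (-c)` of the primes `p ≤ N`, `p ≡ a` modulo `q`, are such that `x_p` has in every base `b ≤ B` all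
words of at most `w` digits with the right frequency, up to an error `ε log N`, in all windows of its
first `A log N` digits.

(2) For all `k` and `B` there are `c > 0` and `C` such that, for all bases `b_i ≤ B`, all places
`n_i ≤ A log N` and all intervals `[u_i, v_i)` in `[0, 1]`, `i < k`, the proportion of those `p` for
which the fractional part of `b_i ^ n_i x_p` is in `[u_i, v_i)` for all `i` differs by at most
`C N ^ (-c)` from the probability of the same event for a random number of `[0, 1)`.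

(3) Let `b, w ≥ 1` and let `F` be a function of the words of `w` digits in base `b` with a positive
asymptotic variance. If `L_N → ∞` and `s_N + L_N ≤ A log N`, then the proportion of those `p` for which
the sum of `F` over the words after the places `s_N + i`, `i < L_N`, of `x_p` is at most
`L_N mean + a √(variance L_N)` tends to the value at `a` of the distribution function of the
standard normal distribution. The number `ω` and the polynomial `P` may depend on `N`.

(4) In particular the number of ones among the `L_N` binary digits of `√p`, `p ≤ N`, after the place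
`s_N` is asymptotically normal with mean `L_N / 2` and variance `L_N / 4`. -/
theorem result (θ : ℝ) (hθ : 0 < θ) (hθ' : ∀ m : ℕ, θ ≠ m) (a q : ℕ) (hq : 1 ≤ q)
    (haq : a.Coprime q) (d : ℕ) (W A : ℝ) :
    (∀ (B w : ℕ) (ε : ℝ), 0 < ε → ∃ c : ℝ, 0 < c ∧ ∃ N₀ : ℕ, ∀ N : ℕ, N₀ ≤ N →
      ∀ (ω : ℝ) (P : Polynomial ℝ), 1 ≤ |ω| → |ω| ≤ (N : ℝ) ^ W → P.natDegree ≤ d →
      (({p ∈ Primes a q N | ¬ NormalUpTo B w (A * Real.log N) (ε * Real.log N)
          (num θ ω P p)}.ncard : ℕ) : ℝ) ≤ (N : ℝ) ^ (-c) * ((Primes a q N).ncard : ℝ)) ∧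
    (∀ k B : ℕ, ∃ c : ℝ, 0 < c ∧ ∃ C : ℝ, ∃ N₀ : ℕ, ∀ N : ℕ, N₀ ≤ N →
      ∀ (ω : ℝ) (P : Polynomial ℝ), 1 ≤ |ω| → |ω| ≤ (N : ℝ) ^ W → P.natDegree ≤ d →
      ∀ (b n : Fin k → ℕ) (u v : Fin k → ℝ), (∀ i, 1 ≤ b i ∧ b i ≤ B) →
      (∀ i, (n i : ℝ) ≤ A * Real.log N) → (∀ i, 0 ≤ u i ∧ v i ≤ 1) →
      |(({p ∈ Primes a q N | ∀ i, Int.fract ((b i : ℝ) ^ n i * num θ ω P p) ∈
            Set.Ico (u i) (v i)}.ncard : ℕ) : ℝ) / ((Primes a q N).ncard : ℝ) -
        (volume {t : ℝ | t ∈ Set.Ico (0 : ℝ) 1 ∧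
          ∀ i, Int.fract ((b i : ℝ) ^ n i * t) ∈ Set.Ico (u i) (v i)}).toReal| ≤
        C * (N : ℝ) ^ (-c)) ∧
    (∀ (b w : ℕ) (F : ℕ → ℝ), 1 ≤ b → 1 ≤ w → 0 < variance b w F →
      ∀ (ω : ℕ → ℝ) (P : ℕ → Polynomial ℝ) (s L : ℕ → ℕ),
      (∀ᶠ N : ℕ in atTop, 1 ≤ |ω N| ∧ |ω N| ≤ (N : ℝ) ^ W ∧ (P N).natDegree ≤ d) →
      Tendsto L atTop atTop → (∀ᶠ N : ℕ in atTop, (s N : ℝ) + L N ≤ A * Real.log N) → ∀ t : ℝ,
      Tendsto (fun N : ℕ => (({p ∈ Primes a q N |
          ∑ i ∈ Finset.range (L N), F (word b w (s N + i) (num θ (ω N) (P N) p)) ≤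
            L N * mean b w F + t * √(variance b w F * L N)}.ncard : ℕ) : ℝ) /
          ((Primes a q N).ncard : ℝ)) atTop (𝓝 ((gaussianReal 0 1).real (Set.Iic t)))) ∧
    (∀ (s L : ℕ → ℕ), Tendsto L atTop atTop →
      (∀ᶠ N : ℕ in atTop, (s N : ℝ) + L N ≤ A * Real.log N) → ∀ t : ℝ,
      Tendsto (fun N : ℕ => (({p ∈ Primes a q N |
          (ones (s N) (L N) (√(p : ℝ)) : ℝ) ≤ L N / 2 + t * (√(L N) / 2)}.ncard : ℕ) : ℝ) /
          ((Primes a q N).ncard : ℝ)) atTop (𝓝 ((gaussianReal 0 1).real (Set.Iic t)))) := by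
  have hcard : ∀ N, ((Primes a q N).ncard : ℕ) = (Pool.Agent.Q270.SP.PrA a q N).card := fun N => by
    rw [Primes_eq, Set.ncard_coe_finset]
  obtain ⟨M1, hM1⟩ := eventually_atTop.1 ((Pool.Agent.Q270.SP.PrA_many a q hq haq (1 / 2)
    (by norm_num)).and (eventually_ge_atTop 1))
  have hne : ∀ N : ℕ, M1 ≤ N → (Pool.Agent.Q270.SP.PrA a q N).Nonempty := fun N hN => by
    obtain ⟨h1, h2⟩ := hM1 N hN
    rw [← Finset.card_pos]
    have h3 : (0 : ℝ) < (N : ℝ) ^ (1 - (1 / 2 : ℝ)) := by
      have : (0 : ℝ) < N := by exact_mod_cast h2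
      positivity
    exact_mod_cast h3.trans_le h1
  have hclt : ∀ (η : ℝ), 0 < η → (∀ m : ℕ, η ≠ m) → ∀ (b w : ℕ) (F : ℕ → ℝ) (W' : ℝ), 1 ≤ b →
      1 ≤ w → 0 < variance b w F → ∀ (ω : ℕ → ℝ) (P : ℕ → Polynomial ℝ) (s L : ℕ → ℕ),
      (∀ᶠ N : ℕ in atTop, 1 ≤ |ω N| ∧ |ω N| ≤ (N : ℝ) ^ W' ∧ (P N).natDegree ≤ d) →
      Tendsto L atTop atTop → (∀ᶠ N : ℕ in atTop, (s N : ℝ) + L N ≤ A * Real.log N) → ∀ t : ℝ,
      Tendsto (fun N : ℕ => (({p ∈ Primes a q N |
          ∑ i ∈ Finset.range (L N), F (word b w (s N + i) (num η (ω N) (P N) p)) ≤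
            L N * mean b w F + t * √(variance b w F * L N)}.ncard : ℕ) : ℝ) /
          ((Primes a q N).ncard : ℝ)) atTop (𝓝 ((gaussianReal 0 1).real (Set.Iic t))) := by
    intro η hη hη' b w F W' hb hw hF ω P s L hω hL hsL t
    have key := Pool.Agent.Y933.KD.clt_gen (ι := ℕ) hb hw F hF (A := A)
      (Pool.Agent.Q270.SP.S1_prob η d W' (Pool.Agent.Q270.SP.PrA a q))
      (fun k => Pool.Agent.Q270.SP.good_one hη hη' d W' a q hq haq b k A)
      (Pool.Agent.Q270.SP.PrA a q) (fun N p => num η (ω N) (P N) p) (by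
        filter_upwards [hω, eventually_ge_atTop M1] with N h1 h2
        exact ⟨hne N h2, hne N h2, ω N, P N, ⟨h1.1, h1.2.1⟩, h1.2.2, rfl⟩) s L hL hsL t
    refine key.congr fun N => ?_
    rw [ncard_eq, hcard]
    congr 2
    apply congrArg Finset.card
    refine Finset.filter_congr fun p _ => ?_
    have h1 : ∑ i ∈ Finset.range (L N), F (Pool.Agent.Y933.KD.wd b w (s N + i)
        (num η (ω N) (P N) p)) =
        ∑ i ∈ Finset.range (L N), F (word b w (s N + i) (num η (ω N) (P N) p)) := rfl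
    have h2 : Pool.Agent.Y933.KD.mn b w F = mean b w F := rfl
    have h3 : Pool.Agent.Y933.KD.cv b w F 0 +
        2 * ∑ h ∈ Finset.Ico 1 w, Pool.Agent.Y933.KD.cv b w F h = variance b w F := rfl
    rw [h1, h2, h3, sub_le_iff_le_add, add_comm (L N * mean b w F)]
  refine ⟨?_, ?_, ?_, ?_⟩
  · intro B w ε hε
    obtain ⟨c, hc, M0, hM0⟩ := Pool.Agent.Y933.KD.normal_gen (ι := ℕ) (w := w) hε
      (Pool.Agent.Q270.SP.S1_prob θ d W (Pool.Agent.Q270.SP.PrA a q))
      (Pool.Agent.Q270.SP.good_one hθ hθ' d W a q hq haq B 1 A)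
    refine ⟨c, hc, max M0 M1, fun N hN ω P hω1 hω2 hP => ?_⟩
    have h1 := hM0 N (le_of_max_le_left hN) (Pool.Agent.Q270.SP.PrA a q N) (num θ ω P)
      ⟨hne N (le_of_max_le_right hN), ω, P, ⟨hω1, hω2⟩, hP, rfl⟩
    rw [ncard_eq, hcard, mul_comm ((N : ℝ) ^ (-c))]
    refine le_trans (Nat.cast_le.2 (Finset.card_le_card fun p hp => ?_)) h1
    simp only [Finset.mem_filter] at hp ⊢
    refine ⟨hp.1, fun h2 => hp.2 ?_⟩
    intro b k j s L hb hbB hk hkw hj hsL
    rw [cnt_eq]
    exact h2 b k j s L hb hbB hk hkw hj hsL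
  · intro k B
    obtain ⟨δ, hδ, C, hC⟩ := Pool.Agent.Y933.KD.tests_gen (ι := ℕ)
      (Pool.Agent.Q270.SP.S1_prob θ d W (Pool.Agent.Q270.SP.PrA a q))
      (Pool.Agent.Q270.SP.good_one hθ hθ' d W a q hq haq B k A)
    refine ⟨δ, hδ, C, max M1 1, fun N hN ω P hω1 hω2 hP b n u v hb hn huv => ?_⟩
    have h1 := hC N (le_of_max_le_right hN) (Pool.Agent.Q270.SP.PrA a q N) (num θ ω P)
      ⟨hne N (le_of_max_le_left hN), ω, P, ⟨hω1, hω2⟩, hP, rfl⟩ b n hb hn u v
      (fun i => (huv i).1) (fun i => (huv i).2)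
    rw [ncard_eq, hcard]
    convert h1
  · intro b w F hb hw hF ω P s L hω hL hsL t
    exact hclt θ hθ hθ' b w F W hb hw hF ω P s L hω hL hsL t
  · intro s L hL hsL t
    have h1 := hclt (1 / 2) (by norm_num) (fun m h => by
      have h2 : (1 : ℝ) = ((2 * m : ℕ) : ℝ) := by push_cast; linarith
      have h3 : 1 = 2 * m := by exact_mod_cast h2
      omega) 2 1 (fun c => (c : ℝ)) 0 (by norm_num) le_rfl (by rw [var_ones]; norm_num)
      (fun _ => 1) (fun _ => 0) s L (Eventually.of_forall fun N => by simp) hL hsL t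
    refine h1.congr fun N => ?_
    rw [ncard_eq, ncard_eq]
    congr 2
    apply congrArg Finset.card
    refine Finset.filter_congr fun p _ => ?_
    have e1 : num (1 / 2) 1 0 p = √(p : ℝ) := by
      unfold num
      rw [one_mul, Polynomial.eval_zero, add_zero, Real.sqrt_eq_rpow]
    rw [e1, sum_ones, var_ones]
    have e2 : mean 2 1 (fun c => (c : ℝ)) = 1 / 2 := by
      simp only [mean]
      norm_num [Finset.sum_range_succ]
    have e3 : √(1 / 4 * (L N : ℝ)) = √(L N) / 2 := by
      rw [Real.sqrt_mul (by norm_num), show (1 / 4 : ℝ) = (1 / 2) ^ 2 by norm_num,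
        Real.sqrt_sq (by norm_num)]
      ring
    rw [e2, e3, mul_one_div]

end Pool.Agent.Results.MP_175f55_nt.SquareRootsOfPrimes
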